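import Pool.Agent.H17Z.Tet.Defs
import Pool.Agent.H17Z.Tet.Main

set_option autoImplicit false

namespace Pool.Agent.Results.MP_36f34d_co.FiveThirdsLowerBound

open Pool.Agent.H17Z.Tet

/-- `f(n) = Ω(n^{5/3})`: an `n`-point set of `ℝ³` can span `c n^{5/3}` tetrahedra similar to one
tetrahedron. -/
theorem result : ∃ c : ℝ, 0 < c ∧ ∃ N : ℕ, ∀ n ≥ N, c * (n : ℝ) ^ ((5:ℝ) / 3) ≤ (f n : ℝ) :=
  main

end Pool.Agent.Results.MP_36f34d_co.FiveThirdsLowerBound
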